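import Pool.Agent.N89.GS.Stm

/-!
# GS (helper89), BON: the Bonferroni inequality of higher order
-/

set_option autoImplicit false

namespace Pool.Agent.N637.GS.BON

open Finset

variable {α : Type} [DecidableEq α]

/-- elementary symmetric polynomials -/
def es (p : α → ℝ) (i : ℕ) (Z : Finset α) : ℝ := ∑ I ∈ Z.powersetCard i, ∏ T ∈ I, p T

/-- the alternating sums -/
def S (p : α → ℝ) (k : ℕ) (Z : Finset α) : ℝ := ∑ i ∈ range (k + 1), (-1) ^ i * es p i Z

lemma es_zero (p : α → ℝ) (Z : Finset α) : es p 0 Z = 1 := by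
  unfold es
  rw [powersetCard_zero, sum_singleton, prod_empty]

lemma es_insert (p : α → ℝ) (i : ℕ) {Z : Finset α} {T : α} (hT : T ∉ Z) :
    es p (i + 1) (insert T Z) = es p (i + 1) Z + p T * es p i Z := by
  unfold es
  rw [powersetCard_succ_insert hT, sum_union, sum_image, mul_sum]
  · congr 1
    refine sum_congr rfl fun I hI => ?_
    rw [prod_insert]
    intro h
    exact hT ((mem_powersetCard.1 hI).1 h)
  · intro I hI J hJ h
    have hI' : T ∉ I := fun h => hT ((mem_powersetCard.1 hI).1 h)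
    have hJ' : T ∉ J := fun h => hT ((mem_powersetCard.1 hJ).1 h)
    rw [← erase_insert hI', ← erase_insert hJ', h]
  · rw [disjoint_left]
    intro I hI hI'
    obtain ⟨J, -, rfl⟩ := mem_image.1 hI'
    exact hT ((mem_powersetCard.1 hI).1 (mem_insert_self T J))

lemma S_zero (p : α → ℝ) (Z : Finset α) : S p 0 Z = 1 := by
  unfold S
  rw [zero_add, range_one, sum_singleton, es_zero]
  norm_num

lemma S_succ (p : α → ℝ) (k : ℕ) (Z : Finset α) :
    S p (k + 1) Z = S p k Z + (-1) ^ (k + 1) * es p (k + 1) Z := by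
  unfold S
  rw [sum_range_succ]

lemma S_insert (p : α → ℝ) (k : ℕ) {Z : Finset α} {T : α} (hT : T ∉ Z) :
    S p (k + 1) (insert T Z) = S p (k + 1) Z - p T * S p k Z := by
  induction k with
  | zero =>
    rw [S_succ, S_succ, S_zero, S_zero, es_insert p 0 hT, es_zero]
    ring
  | succ k ih =>
    rw [S_succ p (k + 1) (insert T Z), ih, es_insert p (k + 1) hT, S_succ p (k + 1) Z,
      S_succ p k Z]
    ring

/-- the inequalities of Bonferroni -/
lemma bonf (p : α → ℝ) (Z : Finset α) (h : ∀ T ∈ Z, 0 ≤ p T ∧ p T ≤ 1) (k : ℕ) :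
    0 ≤ (-1 : ℝ) ^ k * (S p k Z - ∏ T ∈ Z, (1 - p T)) := by
  induction Z using Finset.induction_on generalizing k with
  | empty =>
    have h1 : S p k ∅ = 1 := by
      induction k with
      | zero => exact S_zero p ∅
      | succ k ih =>
        rw [S_succ, ih]
        unfold es
        rw [powersetCard_eq_empty.2 (by simp), sum_empty]
        ring
    rw [h1, prod_empty]
    simp
  | insert T Z hT ih =>
    have hZ : ∀ T ∈ Z, 0 ≤ p T ∧ p T ≤ 1 := fun U hU => h U (mem_insert_of_mem hU)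
    have hp := h T (mem_insert_self T Z)
    cases k with
    | zero =>
      rw [S_zero, pow_zero, one_mul, sub_nonneg]
      exact prod_le_one (fun U hU => by linarith [(h U hU).2]) (fun U hU => by linarith [(h U hU).1])
    | succ k =>
      have h1 := ih hZ (k + 1)
      have h2 := ih hZ k
      rw [S_insert p k hT, prod_insert hT]
      have e : (-1 : ℝ) ^ (k + 1) * (S p (k + 1) Z - p T * S p k Z -
          (1 - p T) * ∏ T ∈ Z, (1 - p T)) =
          (-1 : ℝ) ^ (k + 1) * (S p (k + 1) Z - ∏ T ∈ Z, (1 - p T)) +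
            p T * ((-1 : ℝ) ^ k * (S p k Z - ∏ T ∈ Z, (1 - p T))) := by ring
      rw [e]
      exact add_nonneg h1 (mul_nonneg hp.1 h2)

lemma bin {s p : ℝ} (hs : 0 ≤ s) (hp : 0 ≤ p) (n : ℕ) :
    s ^ (n + 1) + (n + 1) * p * s ^ n ≤ (s + p) ^ (n + 1) := by
  induction n with
  | zero => simp
  | succ n ih =>
    have h1 : 0 ≤ s ^ n := pow_nonneg hs n
    calc s ^ (n + 1 + 1) + ((n + 1 : ℕ) + 1) * p * s ^ (n + 1)
        ≤ (s + p) * (s ^ (n + 1) + (n + 1) * p * s ^ n) := by
          have h2 : 0 ≤ p * ((n + 1) * p * s ^ n) := by positivity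
          have e1 : s ^ (n + 1) = s ^ n * s := pow_succ s n
          have e2 : s ^ (n + 1 + 1) = s ^ n * s * s := by rw [pow_succ, pow_succ]
          push_cast
          rw [e2, e1]
          nlinarith [h2]
      _ ≤ (s + p) * (s + p) ^ (n + 1) := mul_le_mul_of_nonneg_left ih (by linarith)
      _ = (s + p) ^ (n + 1 + 1) := by ring

lemma es_nonneg (p : α → ℝ) (Z : Finset α) (h : ∀ T ∈ Z, 0 ≤ p T) (n : ℕ) : 0 ≤ es p n Z :=
  sum_nonneg fun I hI => prod_nonneg fun T hT => h T ((mem_powersetCard.1 hI).1 hT)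

lemma es_le (p : α → ℝ) (Z : Finset α) (h : ∀ T ∈ Z, 0 ≤ p T) (n : ℕ) :
    es p n Z ≤ (∑ T ∈ Z, p T) ^ n / n.factorial := by
  induction Z using Finset.induction_on generalizing n with
  | empty =>
    cases n with
    | zero => rw [es_zero]; simp
    | succ n =>
      unfold es
      rw [powersetCard_eq_empty.2 (by simp), sum_empty, sum_empty]
      simp
  | insert T Z hT ih =>
    have hZ : ∀ T ∈ Z, 0 ≤ p T := fun U hU => h U (mem_insert_of_mem hU)
    have hp := h T (mem_insert_self T Z)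
    cases n with
    | zero => rw [es_zero]; simp
    | succ n =>
      rw [es_insert p n hT, sum_insert hT]
      set s := ∑ T ∈ Z, p T with hs
      have hs0 : 0 ≤ s := sum_nonneg hZ
      have h1 := ih hZ (n + 1)
      have h2 := mul_le_mul_of_nonneg_left (ih hZ n) hp
      have hb := bin hs0 hp n
      have hf : (0 : ℝ) < ((n + 1).factorial : ℕ) := by exact_mod_cast Nat.factorial_pos _
      have hf' : (0 : ℝ) < (n.factorial : ℕ) := by exact_mod_cast Nat.factorial_pos _
      have e : s ^ (n + 1) / ((n + 1).factorial : ℕ) + p T * (s ^ n / (n.factorial : ℕ)) =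
          (s ^ (n + 1) + (n + 1) * p T * s ^ n) / ((n + 1).factorial : ℕ) := by
        rw [Nat.factorial_succ]
        push_cast
        field_simp
      calc es p (n + 1) Z + p T * es p n Z
          ≤ s ^ (n + 1) / ((n + 1).factorial : ℕ) + p T * (s ^ n / (n.factorial : ℕ)) :=
            add_le_add h1 h2
        _ = (s ^ (n + 1) + (n + 1) * p T * s ^ n) / ((n + 1).factorial : ℕ) := e
        _ ≤ (p T + s) ^ (n + 1) / ((n + 1).factorial : ℕ) := by
            rw [add_comm (p T) s]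
            exact div_le_div_of_nonneg_right hb hf.le

lemma exp_le {x : ℝ} (h0 : 0 ≤ x) (h1 : x ≤ 1 / 2) : Real.exp (-(2 * x)) ≤ 1 - x := by
  rw [Real.exp_neg]
  have h2 : 1 + 2 * x ≤ Real.exp (2 * x) := by
    have := Real.add_one_le_exp (2 * x)
    linarith
  have h3 : 0 < 1 + 2 * x := by linarith
  calc (Real.exp (2 * x))⁻¹ ≤ (1 + 2 * x)⁻¹ := inv_anti₀ h3 h2
    _ ≤ 1 - x := by
      rw [inv_le_iff_one_le_mul₀ h3]
      nlinarith

lemma prod_ge (p : α → ℝ) (Z : Finset α) (h : ∀ T ∈ Z, 0 ≤ p T ∧ p T ≤ 1 / 2) :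
    Real.exp (-(2 * ∑ T ∈ Z, p T)) ≤ ∏ T ∈ Z, (1 - p T) := by
  rw [mul_sum, ← sum_neg_distrib, Real.exp_sum]
  exact prod_le_prod (fun T _ => (Real.exp_pos _).le) fun T hT => exp_le (h T hT).1 (h T hT).2

theorem main : Pool.Agent.N89.GS.S_BON := by
  intro D
  have hD : (0 : ℝ) < Real.exp (-(2 * D)) / 2 := by positivity
  obtain ⟨N, hN⟩ := Filter.eventually_atTop.1 ((FloorSemiring.tendsto_pow_div_factorial_atTop
    (D : ℝ)).eventually (gt_mem_nhds hD))
  refine ⟨2 * N + 1, Real.exp (-(2 * D)) / 2, hD, ?_, ?_⟩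
  · have : Real.exp (-(2 * (D : ℝ))) ≤ 1 := by
      rw [Real.exp_le_one_iff]
      have : (0 : ℝ) ≤ D := Nat.cast_nonneg D
      linarith
    linarith
  intro C _ α Z E p hp hsum hind
  classical
  -- the lower bound for the alternating sum
  have hS : Real.exp (-(2 * D)) / 2 ≤ S p (2 * N + 1) Z := by
    have h1 := bonf p Z (fun T hT => ⟨(hp T hT).1, (hp T hT).2.trans (by norm_num)⟩) (2 * N + 1 + 1)
    have e1 : (-1 : ℝ) ^ (2 * N + 1 + 1) = 1 := Even.neg_one_pow ⟨N + 1, by ring⟩
    rw [S_succ, e1, one_mul, one_mul] at h1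
    have h2 := prod_ge p Z hp
    have h3 : Real.exp (-(2 * D)) ≤ Real.exp (-(2 * ∑ T ∈ Z, p T)) :=
      Real.exp_le_exp.2 (by linarith)
    have h4 := es_le p Z (fun T hT => (hp T hT).1) (2 * N + 1 + 1)
    have h5 : (∑ T ∈ Z, p T) ^ (2 * N + 1 + 1) / ((2 * N + 1 + 1).factorial : ℕ) ≤
        (D : ℝ) ^ (2 * N + 1 + 1) / ((2 * N + 1 + 1).factorial : ℕ) :=
      div_le_div_of_nonneg_right (pow_le_pow_left₀ (sum_nonneg fun T hT => (hp T hT).1) hsum _)
        (Nat.cast_nonneg _)
    have h6 := hN (2 * N + 1 + 1) (by omega)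
    linarith
  -- the indicator functions
  set q : C → α → ℝ := fun c T => if c ∈ E T then 1 else 0 with hq
  have hprod : ∀ (c : C) (I : Finset α), ∏ T ∈ I, q c T = if ∀ T ∈ I, c ∈ E T then 1 else 0 := by
    intro c I
    split_ifs with h
    · exact prod_eq_one fun T hT => by rw [hq]; exact if_pos (h T hT)
    · push Not at h
      obtain ⟨T, hT, hc⟩ := h
      exact prod_eq_zero hT (by rw [hq]; exact if_neg hc)
  have hcard : ∀ I : Finset α, ∑ c : C, ∏ T ∈ I, q c T =
      (({c : C | ∀ T ∈ I, c ∈ E T}.ncard : ℕ) : ℝ) := by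
    intro I
    rw [Set.ncard_eq_toFinset_card', sum_congr rfl fun c _ => hprod c I, sum_boole]
    congr 2
    ext c
    simp
  have hsumS : ∑ c : C, S (q c) (2 * N + 1) Z = Fintype.card C * S p (2 * N + 1) Z := by
    unfold S
    rw [sum_comm, mul_sum]
    refine sum_congr rfl fun i hi => ?_
    rw [mem_range] at hi
    rw [← mul_sum]
    unfold es
    rw [sum_comm, mul_left_comm]
    congr 1
    rw [mul_sum]
    refine sum_congr rfl fun I hI => ?_
    obtain ⟨h1, h2⟩ := mem_powersetCard.1 hI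
    rw [hcard, hind I h1 (by omega)]
  have hpt : ∀ c : C, S (q c) (2 * N + 1) Z ≤ 1 - if ∃ T ∈ Z, c ∈ E T then (1 : ℝ) else 0 := by
    intro c
    have h1 := bonf (q c) Z (fun T _ => by
      rw [hq]
      simp only
      split_ifs <;> norm_num) (2 * N + 1)
    have e1 : (-1 : ℝ) ^ (2 * N + 1) = -1 := Odd.neg_one_pow ⟨N, rfl⟩
    rw [e1] at h1
    have h2 : ∏ T ∈ Z, (1 - q c T) = 1 - if ∃ T ∈ Z, c ∈ E T then (1 : ℝ) else 0 := by
      split_ifs with h
      · obtain ⟨T, hT, hc⟩ := h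
        rw [prod_eq_zero hT (by rw [hq]; simp only; rw [if_pos hc]; norm_num)]
        norm_num
      · push Not at h
        rw [sub_zero]
        exact prod_eq_one fun T hT => by
          rw [hq]
          simp only
          rw [if_neg (h T hT)]
          norm_num
    rw [← h2]
    linarith
  have hex : (({c : C | ∃ T ∈ Z, c ∈ E T}.ncard : ℕ) : ℝ) =
      ∑ c : C, if ∃ T ∈ Z, c ∈ E T then (1 : ℝ) else 0 := by
    rw [Set.ncard_eq_toFinset_card', sum_boole]
    congr 2
    ext c
    simp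
  have h1 : ∑ c : C, S (q c) (2 * N + 1) Z ≤
      ∑ c : C, (1 - if ∃ T ∈ Z, c ∈ E T then (1 : ℝ) else 0) := sum_le_sum fun c _ => hpt c
  rw [hsumS, sum_sub_distrib, ← hex, sum_const, card_univ, nsmul_eq_mul, mul_one] at h1
  have h2 : (Fintype.card C : ℝ) * (Real.exp (-(2 * D)) / 2) ≤
      Fintype.card C * S p (2 * N + 1) Z :=
    mul_le_mul_of_nonneg_left hS (Nat.cast_nonneg _)
  linarith

end Pool.Agent.N637.GS.BON
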